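import Pool.Agent.Helper770.Cube
import Pool.Agent.Helper770.Exist

/-!
# Crossings of subgraphs of the hypercube drawn in several planes

A subgraph `G` of the `k`-dimensional hypercube with average degree `e` has crossing number at
least `2 ^ k * (2 ^ (e - 16) - k ^ 2) / 4`.  By convexity a decomposition of `G` into `t` graphs,
each drawn in its own plane, has at least `t * 2 ^ k * (2 ^ (e / t - 16) - k ^ 2) / 4` crossings.
-/

set_option autoImplicit false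

namespace Pool.Agent.Y401.HC

open Finset Pool.Agent.Helper770.Crossing Pool.Agent.Helper770.Sep
  Pool.Agent.Helper770.EdgeSep Pool.Agent.Helper770.Levels Pool.Agent.Helper770.Cube
  Pool.Agent.Helper770.Exist

/-- The crossing number in `t` planes: the least value of `cr(H 1) + ... + cr(H t)` over all
partitions of the edge set of `G` into the edge sets of `t` spanning subgraphs. -/
noncomputable def multiplanarCrossingNumber {V : Type*} (t : ℕ) (G : SimpleGraph V) : ℕ :=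
  sInf {n | ∃ H : Fin t → SimpleGraph V, (⨆ i, H i) = G ∧
    (∀ i j, i ≠ j → Disjoint (H i) (H j)) ∧ n = ∑ i, crossingNumber (H i)}

theorem multiplanar_attained {V : Type*} (t : ℕ) (ht : 1 ≤ t) (G : SimpleGraph V) :
    ∃ H : Fin t → SimpleGraph V, (⨆ i, H i) = G ∧ (∀ i j, i ≠ j → Disjoint (H i) (H j)) ∧
      multiplanarCrossingNumber t G = ∑ i, crossingNumber (H i) := by
  classical
  refine Nat.sInf_mem (s := {n | ∃ H : Fin t → SimpleGraph V, (⨆ i, H i) = G ∧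
    (∀ i j, i ≠ j → Disjoint (H i) (H j)) ∧ n = ∑ i, crossingNumber (H i)}) ⟨_,
    fun i => if i = ⟨0, by omega⟩ then G else ⊥, ?_, ?_, rfl⟩
  · apply le_antisymm
    · apply iSup_le
      intro i
      dsimp only
      split_ifs
      · exact le_rfl
      · exact bot_le
    · have := le_iSup (fun i : Fin t => if i = ⟨0, by omega⟩ then G else (⊥ : SimpleGraph V))
        ⟨0, by omega⟩
      simpa using this
  · intro i j hij
    by_cases hi : i = ⟨0, by omega⟩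
    · have hj : j ≠ ⟨0, by omega⟩ := fun h => hij (hi.trans h.symm)
      simp only [hj, if_false]
      exact disjoint_bot_right
    · simp only [hi, if_false]
      exact disjoint_bot_left

lemma card_le_top (k : ℕ) (G : SimpleGraph (Fin k → Bool)) (hG : G ≤ hypercube k) :
    2 * (edges G).card ≤ 2 ^ k * k := by
  rw [← edges_card k]
  apply Nat.mul_le_mul_left
  apply card_le_card
  intro e he
  rw [mem_edges] at he ⊢
  exact SimpleGraph.edgeSet_mono hG he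

/-- One plane. -/
theorem one_plane (k : ℕ) (hk : 1 ≤ k) (G : SimpleGraph (Fin k → Bool)) (hG : G ≤ hypercube k) :
    (2 : ℝ) ^ k * ((2 : ℝ) ^ (2 * ((edges G).card : ℝ) / 2 ^ k - 16) - (k : ℝ) ^ 2) ≤
      4 * (crossingNumber G : ℝ) := by
  classical
  obtain ⟨D, hfin, hX⟩ := crossingNumber_attained G
  rw [← hX]
  set X := D.crossings.ncard with hXdef
  set e : ℝ := 2 * ((edges G).card : ℝ) / 2 ^ k with he
  have hp : (0 : ℝ) < 2 ^ k := by positivity
  by_contra hcon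
  push Not at hcon
  have hk1 : (1 : ℝ) ≤ k := by exact_mod_cast hk
  have hX0 : (0 : ℝ) ≤ X := Nat.cast_nonneg _
  -- `e` is at least three
  have he3 : 3 ≤ e := by
    by_contra h
    push Not at h
    have h1 : (2 : ℝ) ^ (e - 16) ≤ 1 :=
      Real.rpow_le_one_of_one_le_of_nonpos (by norm_num) (by linarith)
    have h2 : (2 : ℝ) ^ k * ((2 : ℝ) ^ (e - 16) - (k : ℝ) ^ 2) ≤ 0 := by
      apply mul_nonpos_of_nonneg_of_nonpos hp.le
      nlinarith
    linarith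
  have hek : e ≤ k := by
    rw [he, div_le_iff₀ hp]
    have := card_le_top k G hG
    have h2 : ((2 * (edges G).card : ℕ) : ℝ) ≤ ((2 ^ k * k : ℕ) : ℝ) := by exact_mod_cast this
    push_cast at h2
    linarith
  -- choice of the size of the components
  obtain ⟨m, hm⟩ : ∃ m : ℕ, m + 3 = ⌈e⌉₊ := by
    have : 3 ≤ ⌈e⌉₊ := by
      have := Nat.le_ceil e
      have h3 : (3 : ℝ) ≤ (⌈e⌉₊ : ℝ) := he3.trans this
      exact_mod_cast h3
    exact ⟨⌈e⌉₊ - 3, by omega⟩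
  have hm1 : e ≤ (m : ℝ) + 3 := by
    have := Nat.le_ceil e
    rw [← hm] at this
    push_cast at this
    exact this
  have hm2 : (m : ℝ) + 2 < e := by
    have := Nat.ceil_lt_add_one (show (0 : ℝ) ≤ e by linarith)
    rw [← hm] at this
    push_cast at this
    linarith
  have hmk : m ≤ k := by
    have : (m : ℝ) ≤ k := by linarith
    exact_mod_cast this
  have hV : Fintype.card (Fin k → Bool) = 2 ^ k := by simp
  obtain ⟨F, hF, hT, hFc⟩ := dyadic D hfin k k hk (dg_le k G hG) hV (k - m) (by omega)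
  rw [show k - (k - m) = m by omega] at hT
  -- few edges are deleted
  have hW : (k : ℝ) ^ 2 * 2 ^ k + 4 * X < 2 ^ k * 2 ^ m / 2 ^ 13 := by
    have h1 : (2 : ℝ) ^ (e - 16) ≤ 2 ^ m / 2 ^ 13 := by
      calc (2 : ℝ) ^ (e - 16) ≤ (2 : ℝ) ^ ((m : ℝ) - (13 : ℕ)) :=
            Real.rpow_le_rpow_of_exponent_le (by norm_num) (by push_cast; linarith)
        _ = 2 ^ m / 2 ^ 13 := by
            rw [Real.rpow_sub (by norm_num), Real.rpow_natCast, Real.rpow_natCast]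
    have h2 : (2 : ℝ) ^ k * (2 : ℝ) ^ (e - 16) ≤ 2 ^ k * (2 ^ m / 2 ^ 13) :=
      mul_le_mul_of_nonneg_left h1 hp.le
    have h3 : (2 : ℝ) ^ k * ((2 : ℝ) ^ (e - 16) - (k : ℝ) ^ 2) =
        2 ^ k * (2 : ℝ) ^ (e - 16) - (k : ℝ) ^ 2 * 2 ^ k := by ring
    rw [h3] at hcon
    have h4 : (2 : ℝ) ^ k * (2 ^ m / 2 ^ 13) = 2 ^ k * 2 ^ m / 2 ^ 13 := by ring
    linarith
  have hFlt : (F.card : ℝ) < 2 ^ k := by
    by_contra h
    push Not at h
    have h1 : ((2 : ℝ) ^ k) ^ 2 ≤ (F.card : ℝ) ^ 2 := pow_le_pow_left₀ hp.le h 2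
    have h2 : ((F.card ^ 2 : ℕ) : ℝ) ≤
        ((6400 * (k ^ 2 * 2 ^ k + 4 * D.crossings.ncard) * 2 ^ (k - m) : ℕ) : ℝ) := by
      exact_mod_cast hFc
    push_cast at h2
    rw [← hXdef] at h2
    have h3 : (2 : ℝ) ^ (k - m) * 2 ^ m = 2 ^ k := by
      rw [← pow_add]; congr 1; omega
    have hq : (0 : ℝ) < 2 ^ (k - m) := by positivity
    have h4 : ((k : ℝ) ^ 2 * 2 ^ k + 4 * X) * 2 ^ (k - m) ≤ (2 ^ k) ^ 2 / 2 ^ 13 := by
      calc ((k : ℝ) ^ 2 * 2 ^ k + 4 * X) * 2 ^ (k - m)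
          ≤ (2 ^ k * 2 ^ m / 2 ^ 13) * 2 ^ (k - m) :=
            mul_le_mul_of_nonneg_right hW.le hq.le
        _ = 2 ^ k * (2 ^ (k - m) * 2 ^ m) / 2 ^ 13 := by ring
        _ = (2 ^ k) ^ 2 / 2 ^ 13 := by rw [h3]; ring
    have h5 : (0 : ℝ) < (2 ^ k) ^ 2 := by positivity
    have h6 : (6400 : ℝ) * ((k : ℝ) ^ 2 * 2 ^ k + 4 * X) * 2 ^ (k - m) ≤
        6400 * ((2 ^ k) ^ 2 / 2 ^ 13) := by
      have := mul_le_mul_of_nonneg_left h4 (show (0 : ℝ) ≤ 6400 by norm_num)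
      linarith
    have h7 : (6400 : ℝ) * ((2 ^ k) ^ 2 / 2 ^ 13) < (2 ^ k) ^ 2 := by
      have : (6400 : ℝ) * ((2 ^ k) ^ 2 / 2 ^ 13) = (6400 / 2 ^ 13) * (2 ^ k) ^ 2 := by ring
      rw [this]
      have h8 : (6400 : ℝ) / 2 ^ 13 < 1 := by norm_num
      nlinarith
    linarith
  -- few edges remain
  have h2 := few_edges k m (G.deleteEdges (F : Set (Sym2 (Fin k → Bool))))
    ((SimpleGraph.deleteEdges_le _).trans hG) hT
  have h3 : edges G ⊆ F ∪ edges (G.deleteEdges (F : Set (Sym2 (Fin k → Bool)))) := by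
    intro e he
    by_cases h : e ∈ F
    · exact mem_union_left _ h
    · apply mem_union_right
      rw [mem_edges] at he ⊢
      rw [SimpleGraph.edgeSet_deleteEdges]
      exact ⟨he, by exact_mod_cast h⟩
  have h4 := (card_le_card h3).trans (card_union_le _ _)
  have h5 : 2 * (edges G).card ≤ 2 * F.card + 2 ^ k * m := by omega
  have h6 : (2 : ℝ) * (edges G).card ≤ 2 * F.card + 2 ^ k * m := by exact_mod_cast h5
  have h7 : e * 2 ^ k = 2 * (edges G).card := by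
    rw [he]; field_simp
  have h8 : e * 2 ^ k < (m + 2) * 2 ^ k := by
    rw [h7]; linarith
  have h9 : e < m + 2 := lt_of_mul_lt_mul_right h8 hp.le
  linarith

lemma two_rpow_tangent (x a : ℝ) :
    (2 : ℝ) ^ a * (1 + (x - a) * Real.log 2) ≤ (2 : ℝ) ^ x := by
  have h1 : (2 : ℝ) ^ x = (2 : ℝ) ^ a * (2 : ℝ) ^ (x - a) := by
    rw [← Real.rpow_add (by norm_num)]; congr 1; ring
  rw [h1]
  apply mul_le_mul_of_nonneg_left _ (by positivity)
  rw [Real.rpow_def_of_pos (by norm_num), mul_comm (Real.log 2)]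
  linarith [Real.add_one_le_exp ((x - a) * Real.log 2)]

/-- Several planes, arbitrary covers of the edge set. -/
theorem several_planes (t k : ℕ) (ht : 1 ≤ t) (hk : 1 ≤ k)
    (G : SimpleGraph (Fin k → Bool)) (H : Fin t → SimpleGraph (Fin k → Bool))
    (hH : ∀ i, H i ≤ hypercube k) (hG : G ≤ ⨆ i, H i) :
    (t : ℝ) * 2 ^ k * ((2 : ℝ) ^ (2 * ((edges G).card : ℝ) / 2 ^ k / t - 16) - (k : ℝ) ^ 2) ≤
      4 * ((∑ i, crossingNumber (H i) : ℕ) : ℝ) := by
  classical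
  set a : ℝ := 2 * ((edges G).card : ℝ) / 2 ^ k / t - 16 with ha
  have hp : (0 : ℝ) < 2 ^ k := by positivity
  have ht0 : (0 : ℝ) < t := by exact_mod_cast ht
  have hcov : (edges G).card ≤ ∑ i, (edges (H i)).card := by
    have h1 : edges G ⊆ univ.biUnion (fun i => edges (H i)) := by
      intro e he
      rw [mem_edges] at he
      rw [mem_biUnion]
      revert he
      refine Sym2.ind (fun x y hxy => ?_) e
      rw [SimpleGraph.mem_edgeSet] at hxy
      have := hG hxy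
      rw [SimpleGraph.iSup_adj] at this
      obtain ⟨i, hi⟩ := this
      exact ⟨i, mem_univ _, by rw [mem_edges, SimpleGraph.mem_edgeSet]; exact hi⟩
    exact (card_le_card h1).trans card_biUnion_le
  have hcov' : ((edges G).card : ℝ) ≤ ∑ i, ((edges (H i)).card : ℝ) := by exact_mod_cast hcov
  have hsum : (t : ℝ) * a ≤ ∑ i, (2 * ((edges (H i)).card : ℝ) / 2 ^ k - 16) := by
    rw [Finset.sum_sub_distrib, ← Finset.sum_div, ← Finset.mul_sum]
    simp only [sum_const, card_univ, Fintype.card_fin, nsmul_eq_mul]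
    have h1 : (t : ℝ) * a = 2 * ((edges G).card : ℝ) / 2 ^ k - t * 16 := by
      rw [ha]; field_simp
    rw [h1]
    have h2 : 2 * ((edges G).card : ℝ) / 2 ^ k ≤ 2 * (∑ i, ((edges (H i)).card : ℝ)) / 2 ^ k := by
      apply div_le_div_of_nonneg_right _ hp.le
      linarith
    linarith
  have hlog : 0 < Real.log 2 := Real.log_pos (by norm_num)
  have hconv : (t : ℝ) * (2 : ℝ) ^ a ≤
      ∑ i, (2 : ℝ) ^ (2 * ((edges (H i)).card : ℝ) / 2 ^ k - 16) := by
    calc (t : ℝ) * (2 : ℝ) ^ a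
        ≤ (2 : ℝ) ^ a * (t + ((∑ i, (2 * ((edges (H i)).card : ℝ) / 2 ^ k - 16)) - t * a) *
            Real.log 2) := by
          have h1 : 0 ≤ ((∑ i, (2 * ((edges (H i)).card : ℝ) / 2 ^ k - 16)) - t * a) *
            Real.log 2 := mul_nonneg (by linarith) hlog.le
          have h2 : (0 : ℝ) < (2 : ℝ) ^ a := by positivity
          nlinarith
      _ = ∑ i, (2 : ℝ) ^ a *
            (1 + ((2 * ((edges (H i)).card : ℝ) / 2 ^ k - 16) - a) * Real.log 2) := by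
          rw [← Finset.mul_sum, Finset.sum_add_distrib, ← Finset.sum_mul,
            Finset.sum_sub_distrib (f := fun i => (2 * ((edges (H i)).card : ℝ) / 2 ^ k - 16))
              (g := fun _ => a)]
          simp only [sum_const, card_univ, Fintype.card_fin, nsmul_eq_mul, mul_one]
      _ ≤ _ := Finset.sum_le_sum (fun i _ => two_rpow_tangent _ _)
  calc (t : ℝ) * 2 ^ k * ((2 : ℝ) ^ a - (k : ℝ) ^ 2)
      = 2 ^ k * ((t : ℝ) * (2 : ℝ) ^ a) - 2 ^ k * (t * (k : ℝ) ^ 2) := by ring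
    _ ≤ 2 ^ k * (∑ i, (2 : ℝ) ^ (2 * ((edges (H i)).card : ℝ) / 2 ^ k - 16)) -
          2 ^ k * (t * (k : ℝ) ^ 2) := by
        have := mul_le_mul_of_nonneg_left hconv hp.le
        linarith
    _ = ∑ i, (2 : ℝ) ^ k * ((2 : ℝ) ^ (2 * ((edges (H i)).card : ℝ) / 2 ^ k - 16) -
          (k : ℝ) ^ 2) := by
        rw [← Finset.mul_sum, Finset.sum_sub_distrib]
        simp only [sum_const, card_univ, Fintype.card_fin, nsmul_eq_mul]
        ring
    _ ≤ ∑ i, 4 * (crossingNumber (H i) : ℝ) :=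
        Finset.sum_le_sum (fun i _ => one_plane k hk (H i) (hH i))
    _ = 4 * ((∑ i, crossingNumber (H i) : ℕ) : ℝ) := by
        push_cast
        rw [← Finset.mul_sum]

lemma edges_ncard {V : Type*} [Fintype V] (G : SimpleGraph V) :
    (G.edgeSet.ncard : ℝ) = ((edges G).card : ℝ) := by
  classical
  have : G.edgeSet = (edges G : Set (Sym2 V)) := by
    ext e; simp [mem_edges]
  rw [this, Set.ncard_coe_finset]

/-- the average degree of the hypercube -/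
lemma avg_cube (k : ℕ) : 2 * ((edges (hypercube k)).card : ℝ) / 2 ^ k = k := by
  have h := edges_card k
  have h2 : (2 : ℝ) * (edges (hypercube k)).card = 2 ^ k * k := by exact_mod_cast h
  rw [h2]; field_simp

theorem part1 (t k : ℕ) (ht : 1 ≤ t) (hk : 1 ≤ k) (G : SimpleGraph (Fin k → Bool))
    (hG : G ≤ hypercube k) :
    (t : ℝ) * 2 ^ k * ((2 : ℝ) ^ (2 * (G.edgeSet.ncard : ℝ) / 2 ^ k / t - 16) - (k : ℝ) ^ 2) ≤
      4 * (multiplanarCrossingNumber t G : ℝ) := by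
  obtain ⟨H, hH, -, hn⟩ := multiplanar_attained t ht G
  rw [hn, edges_ncard]
  refine several_planes t k ht hk G H (fun i => ?_) hH.ge
  exact (le_iSup H i).trans (hH.le.trans hG)

theorem part2 (t k : ℕ) (ht : 1 ≤ t) (hk : 1 ≤ k)
    (h : (2 : ℝ) ^ 17 * (k : ℝ) ^ 2 ≤ (2 : ℝ) ^ ((k : ℝ) / t)) :
    (t : ℝ) * (2 : ℝ) ^ ((1 + 1 / (t : ℝ)) * k) / 2 ^ 19 ≤
      (multiplanarCrossingNumber t (hypercube k) : ℝ) := by
  have h1 := part1 t k ht hk (hypercube k) le_rfl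
  rw [edges_ncard, avg_cube] at h1
  have ht0 : (0 : ℝ) < t := by exact_mod_cast ht
  have e1 : (2 : ℝ) ^ ((k : ℝ) / t - 16) = (2 : ℝ) ^ ((k : ℝ) / t) / 2 ^ 16 := by
    rw [Real.rpow_sub (by norm_num)]; norm_num
  have e2 : (2 : ℝ) ^ ((1 + 1 / (t : ℝ)) * k) = 2 ^ k * (2 : ℝ) ^ ((k : ℝ) / t) := by
    rw [← Real.rpow_natCast, ← Real.rpow_add (by norm_num)]
    congr 1; field_simp
  rw [e1] at h1
  rw [e2]
  have hp : (0 : ℝ) < t * 2 ^ k := by positivity
  set y := (2 : ℝ) ^ ((k : ℝ) / t)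
  have h2 : y / 2 ^ 17 ≤ y / 2 ^ 16 - (k : ℝ) ^ 2 := by
    have : y / 2 ^ 16 = y / 2 ^ 17 + y / 2 ^ 17 := by ring
    rw [this]
    have : (k : ℝ) ^ 2 ≤ y / 2 ^ 17 := by
      rw [le_div_iff₀ (by positivity)]; linarith
    linarith
  have h3 := mul_le_mul_of_nonneg_left h2 hp.le
  have h4 : (t : ℝ) * (2 ^ k * y) / 2 ^ 19 = (t * 2 ^ k * (y / 2 ^ 17)) / 4 := by ring
  rw [h4]
  linarith

lemma pow_bound (k : ℕ) (hk : 64 ≤ k) : 2 ^ 34 * k ^ 4 ≤ 2 ^ k := by
  induction k, hk using Nat.le_induction with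
  | base => norm_num
  | succ n hn ih =>
    have h1 : (n + 1) ^ 4 ≤ 2 * n ^ 4 := by
      have h2 : 64 * (n + 1) ≤ 65 * n := by omega
      have h3 : (64 * (n + 1)) ^ 4 ≤ (65 * n) ^ 4 := Nat.pow_le_pow_left h2 4
      have h4 : (65 * n) ^ 4 ≤ 2 * (64 * n) ^ 4 := by
        have e1 : (65 * n) ^ 4 = 65 ^ 4 * n ^ 4 := by ring
        have e2 : 2 * (64 * n) ^ 4 = (2 * 64 ^ 4) * n ^ 4 := by ring
        rw [e1, e2]
        exact Nat.mul_le_mul_right _ (by norm_num)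
      have h5 : 64 ^ 4 * (n + 1) ^ 4 ≤ 64 ^ 4 * (2 * n ^ 4) := by
        calc 64 ^ 4 * (n + 1) ^ 4 = (64 * (n + 1)) ^ 4 := by ring
          _ ≤ 2 * (64 * n) ^ 4 := h3.trans h4
          _ = 64 ^ 4 * (2 * n ^ 4) := by ring
      exact Nat.le_of_mul_le_mul_left h5 (by norm_num)
    calc 2 ^ 34 * (n + 1) ^ 4 ≤ 2 ^ 34 * (2 * n ^ 4) := Nat.mul_le_mul_left _ h1
      _ = 2 * (2 ^ 34 * n ^ 4) := by ring
      _ ≤ 2 * 2 ^ n := Nat.mul_le_mul_left _ ih
      _ = 2 ^ (n + 1) := by ring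

theorem part3 (k : ℕ) (hk : 64 ≤ k) :
    (2 : ℝ) ^ (3 * (k : ℝ) / 2) / 2 ^ 18 ≤ (biplanarCrossingNumber (hypercube k) : ℝ) := by
  obtain ⟨G₁, G₂, hG, -, hbi⟩ := biplanar_attained (hypercube k)
  have hG₁ : G₁ ≤ hypercube k := hG ▸ le_sup_left
  have hG₂ : G₂ ≤ hypercube k := hG ▸ le_sup_right
  have h1 := several_planes 2 k (by norm_num) (by omega) (hypercube k) ![G₁, G₂]
    (by intro i; fin_cases i <;> simp [hG₁, hG₂])
    (by rw [← hG]; apply sup_le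
        · exact le_iSup ![G₁, G₂] 0
        · exact le_iSup ![G₁, G₂] 1)
  rw [avg_cube] at h1
  simp only [Fin.sum_univ_two, Matrix.cons_val_zero, Matrix.cons_val_one] at h1
  rw [← hbi] at h1
  have e1 : (2 : ℝ) ^ ((k : ℝ) / (2 : ℕ) - 16) = (2 : ℝ) ^ ((k : ℝ) / 2) / 2 ^ 16 := by
    rw [Real.rpow_sub (by norm_num)]; norm_num
  have e2 : (2 : ℝ) ^ (3 * (k : ℝ) / 2) = 2 ^ k * (2 : ℝ) ^ ((k : ℝ) / 2) := by
    rw [← Real.rpow_natCast, ← Real.rpow_add (by norm_num)]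
    congr 1; ring
  have h2 : (2 : ℝ) ^ 17 * (k : ℝ) ^ 2 ≤ (2 : ℝ) ^ ((k : ℝ) / 2) := by
    have h3 : ((2 : ℝ) ^ 17 * (k : ℝ) ^ 2) ^ 2 ≤ ((2 : ℝ) ^ ((k : ℝ) / 2)) ^ 2 := by
      have e3 : ((2 : ℝ) ^ ((k : ℝ) / 2)) ^ 2 = 2 ^ k := by
        rw [← Real.rpow_natCast, ← Real.rpow_mul (by norm_num), ← Real.rpow_natCast]
        congr 1; push_cast; ring
      rw [e3]
      have := pow_bound k hk
      have h4 : ((2 ^ 34 * k ^ 4 : ℕ) : ℝ) ≤ ((2 ^ k : ℕ) : ℝ) := by exact_mod_cast this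
      rw [Nat.cast_mul, Nat.cast_pow, Nat.cast_pow, Nat.cast_pow, Nat.cast_ofNat] at h4
      calc ((2 : ℝ) ^ 17 * (k : ℝ) ^ 2) ^ 2 = 2 ^ 34 * (k : ℝ) ^ 4 := by ring
        _ ≤ 2 ^ k := h4
    exact (pow_le_pow_iff_left₀ (by positivity) (by positivity) (by norm_num)).mp h3
  rw [e1] at h1
  rw [e2]
  set y := (2 : ℝ) ^ ((k : ℝ) / 2)
  have hp : (0 : ℝ) < 2 ^ k := by positivity
  have h5 : y / 2 ^ 17 ≤ y / 2 ^ 16 - (k : ℝ) ^ 2 := by
    have : y / 2 ^ 16 = y / 2 ^ 17 + y / 2 ^ 17 := by ring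
    rw [this]
    have : (k : ℝ) ^ 2 ≤ y / 2 ^ 17 := by
      rw [le_div_iff₀ (by positivity)]; linarith
    linarith
  have h6 := mul_le_mul_of_nonneg_left h5 (show (0 : ℝ) ≤ 2 * 2 ^ k by positivity)
  have h7 : 2 ^ k * y / 2 ^ 18 = (2 * 2 ^ k * (y / 2 ^ 17)) / 4 := by ring
  rw [h7]
  push_cast at h1
  linarith

end Pool.Agent.Y401.HC
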